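import Mathlib
import Pool.Agent.Y729.FW.Surj

set_option autoImplicit false

/-!
# The modular forms of level one on the imaginary axis
-/

namespace Pool.Agent.R465.FH

open UpperHalfPlane hiding I
open ModularForm Complex EisensteinSeries Filter Topology
open scoped ArithmeticFunction.sigma

/-- the point `i y` -/
noncomputable def pt (y : ℝ) (hy : 0 < y) : ℍ := ⟨⟨0, y⟩, hy⟩

lemma pt_coe (y : ℝ) (hy : 0 < y) : ((pt y hy : ℍ) : ℂ) = y * I := by
  apply Complex.ext <;> simp [pt]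

/-- the real series `∑ σ_k(n) q ^ n` -/
noncomputable def S (k : ℕ) (q : ℝ) : ℝ := ∑' n : ℕ+, (σ k n : ℝ) * q ^ (n : ℕ)

lemma S_summable (k : ℕ) {q : ℝ} (h0 : 0 < q) (h1 : q < 1) :
    Summable fun n : ℕ+ => (σ k n : ℝ) * q ^ (n : ℕ) := by
  have h2 : Summable fun n : ℕ => ((n : ℝ) ^ (k + 1) * q ^ n) := by
    have := summable_norm_pow_mul_geometric_of_norm_lt_one (R := ℝ) (k + 1) (r := q) (by
      rw [Real.norm_of_nonneg h0.le]
      exact h1)
    refine this.congr fun n => ?_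
    rw [norm_mul, norm_pow, norm_pow, Real.norm_of_nonneg h0.le, Real.norm_natCast]
  have h3 : Summable fun n : ℕ => (σ k n : ℝ) * q ^ n := by
    refine Summable.of_nonneg_of_le (fun n => by positivity) (fun n => ?_) h2
    refine mul_le_mul_of_nonneg_right ?_ (by positivity)
    exact_mod_cast ArithmeticFunction.sigma_le_pow_succ k n
  exact h3.comp_injective (i := fun n : ℕ+ => (n : ℕ)) PNat.coe_injective

lemma S_lt (k : ℕ) {q r : ℝ} (h0 : 0 < q) (h1 : q < r) (h2 : r < 1) : S k q < S k r := by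
  refine Summable.tsum_lt_tsum (i := 1) (fun n => ?_) ?_ (S_summable k h0 (h1.trans h2))
    (S_summable k (h0.trans h1) h2)
  · exact mul_le_mul_of_nonneg_left (pow_le_pow_left₀ h0.le h1.le _) (by positivity)
  · simp
    exact h1

/-- the parameter on the axis -/
noncomputable def qq (y : ℝ) : ℝ := Real.exp (-(2 * Real.pi * y))

lemma qq_pos (y : ℝ) : 0 < qq y := Real.exp_pos _

lemma qq_lt_one {y : ℝ} (hy : 0 < y) : qq y < 1 := by
  unfold qq
  rw [Real.exp_lt_one_iff]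
  have := Real.pi_pos
  have : 0 < 2 * Real.pi * y := by positivity
  linarith

lemma qq_lt {x y : ℝ} (h : x < y) : qq y < qq x := by
  unfold qq
  rw [Real.exp_lt_exp]
  have := Real.pi_pos
  nlinarith

lemma cexp_pt (y : ℝ) (hy : 0 < y) : cexp (2 * Real.pi * I * (pt y hy : ℂ)) = (qq y : ℂ) := by
  rw [pt_coe, qq]
  push_cast
  congr 1
  linear_combination (2 * (Real.pi : ℂ) * y) * I_sq

lemma ser_pt (k : ℕ) (y : ℝ) (hy : 0 < y) :
    ∑' n : ℕ+, (σ k n : ℂ) * cexp (2 * Real.pi * I * (pt y hy : ℂ)) ^ (n : ℕ) = (S k (qq y) : ℂ) := by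
  rw [S, Complex.ofReal_tsum]
  refine tsum_congr fun n => ?_
  rw [cexp_pt]
  push_cast
  rfl

/-- the values of `E₂` on the axis -/
noncomputable def e2 (y : ℝ) : ℝ := 1 - 24 * S 1 (qq y)

/-- the values of `E₄` on the axis -/
noncomputable def e4 (y : ℝ) : ℝ := 1 + 240 * S 3 (qq y)

/-- the values of `E₆` on the axis -/
noncomputable def e6 (y : ℝ) : ℝ := 1 - 504 * S 5 (qq y)

lemma E2_pt (y : ℝ) (hy : 0 < y) : E2 (pt y hy) = (e2 y : ℂ) := by
  rw [E2_eq_tsum_cexp, e2]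
  push_cast
  rw [← ser_pt 1 y hy]

lemma E4_pt (y : ℝ) (hy : 0 < y) : E₄ (pt y hy) = (e4 y : ℂ) := by
  have h := EisensteinSeries.q_expansion_bernoulli (k := 4) (by norm_num) ⟨2, rfl⟩ (pt y hy)
  rw [show bernoulli 4 = -1 / 30 by decide +kernel] at h
  have h2 : E₄ (pt y hy) = E (k := 4) (by norm_num) (pt y hy) := rfl
  rw [h2, h, e4]
  simp only [zpow_natCast]
  rw [show (4 - 1 : ℕ) = 3 from rfl, ser_pt 3 y hy]
  push_cast
  ring

lemma E6_pt (y : ℝ) (hy : 0 < y) : E₆ (pt y hy) = (e6 y : ℂ) := by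
  have h := EisensteinSeries.q_expansion_bernoulli (k := 6) (by norm_num) ⟨3, rfl⟩ (pt y hy)
  rw [show bernoulli 6 = 1 / 42 by decide +kernel] at h
  have h2 : E₆ (pt y hy) = E (k := 6) (by norm_num) (pt y hy) := rfl
  rw [h2, h, e6]
  simp only [zpow_natCast]
  rw [show (6 - 1 : ℕ) = 5 from rfl, ser_pt 5 y hy]
  push_cast
  ring

lemma e2_lt {x y : ℝ} (hx : 0 < x) (h : x < y) : e2 x < e2 y := by
  have := S_lt 1 (qq_pos y) (qq_lt h) (qq_lt_one hx)
  unfold e2
  linarith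

lemma e6_lt {x y : ℝ} (hx : 0 < x) (h : x < y) : e6 x < e6 y := by
  have := S_lt 5 (qq_pos y) (qq_lt h) (qq_lt_one hx)
  unfold e6
  linarith

lemma S_pt_one : ModularGroup.S • pt 1 one_pos = pt 1 one_pos := by
  rw [modular_S_smul]
  apply UpperHalfPlane.ext
  show (-(pt 1 one_pos : ℂ))⁻¹ = (pt 1 one_pos : ℂ)
  rw [pt_coe]
  push_cast
  rw [one_mul, inv_neg, Complex.inv_I, neg_neg]

lemma e2_one : e2 1 = 3 / Real.pi := by
  have h := G2_S_transform (pt 1 one_pos)
  rw [S_pt_one, pt_coe] at h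
  push_cast at h
  rw [one_mul, I_sq] at h
  have h2 : G2 (pt 1 one_pos) = Real.pi := by
    have h3 : -2 * (Real.pi : ℂ) * I / I = -2 * Real.pi := by
      field_simp
    rw [h3] at h
    linear_combination (1 / 2) * h
  have h4 := E2_pt 1 one_pos
  have h5 : E2 (pt 1 one_pos) = 1 / (2 * riemannZeta 2) * G2 (pt 1 one_pos) := by
    simp [E2]
  rw [h5, h2, riemannZeta_two] at h4
  have hpi : (Real.pi : ℂ) ≠ 0 := by exact_mod_cast Real.pi_ne_zero
  have h6 : (1 / (2 * ((Real.pi : ℂ) ^ 2 / 6)) * (Real.pi : ℂ)) = ((3 / Real.pi : ℝ) : ℂ) := by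
    push_cast
    field_simp
    norm_num
  rw [h6] at h4
  exact_mod_cast h4.symm

lemma E6_smul (g : Matrix.SpecialLinearGroup (Fin 2) ℤ) (τ : ℍ) :
    E₆ (g • τ) = denom g τ ^ (6 : ℤ) * E₆ τ :=
  SlashInvariantForm.slash_action_eqn'' (Γ := (Matrix.SpecialLinearGroup.mapGL ℝ).range)
    ModularForm.E₆ (γ := Matrix.SpecialLinearGroup.mapGL ℝ g) (by exact ⟨g, rfl⟩) τ

lemma e6_one : e6 1 = 0 := by
  have h := E6_smul ModularGroup.S (pt 1 one_pos)
  rw [S_pt_one, ModularGroup.denom_S, E6_pt, pt_coe] at h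
  push_cast at h
  rw [one_mul] at h
  have h2 : (I : ℂ) ^ (6 : ℤ) = -1 := by
    have : (I : ℂ) ^ (6 : ℤ) = (I ^ 2) ^ 3 := by
      rw [← pow_mul]
      norm_cast
    rw [this, I_sq]
    norm_num
  rw [h2] at h
  have h3 : ((e6 1 : ℝ) : ℂ) = 0 := by linear_combination (1 / 2) * h
  exact_mod_cast h3

lemma e2_ge {y : ℝ} (hy : 1 ≤ y) : 3 / Real.pi ≤ e2 y := by
  rcases eq_or_lt_of_le hy with h | h
  · rw [← h, e2_one]
  · rw [← e2_one]
    exact (e2_lt one_pos h).le

lemma e2_gt {y : ℝ} (hy : 1 < y) : 3 / Real.pi < e2 y := by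
  rw [← e2_one]
  exact e2_lt one_pos hy

lemma e6_nonneg {y : ℝ} (hy : 1 ≤ y) : 0 ≤ e6 y := by
  rcases eq_or_lt_of_le hy with h | h
  · rw [← h, e6_one]
  · rw [← e6_one]
    exact (e6_lt one_pos h).le

/-- the discriminant on the axis -/
noncomputable def dl (y : ℝ) : ℝ := qq y * (∏' n : ℕ, (1 - qq y ^ (n + 1))) ^ 24

lemma disc_pt (y : ℝ) (hy : 0 < y) : ModularForm.discriminant (pt y hy) = (dl y : ℂ) := by
  have hq : Function.Periodic.qParam 1 (pt y hy : ℂ) = (qq y : ℂ) := by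
    rw [Function.Periodic.qParam, ← cexp_pt y hy]
    congr 1
    push_cast
    ring
  have hm : Multipliable fun n : ℕ => (1 - qq y ^ (n + 1) : ℝ) := by
    have : Multipliable fun n : ℕ => (1 + -(qq y ^ (n + 1)) : ℝ) := by
      apply Real.multipliable_one_add_of_summable
      have h1 := (summable_nat_add_iff 1).mpr
        (summable_geometric_of_lt_one (qq_pos y).le (qq_lt_one hy))
      exact h1.neg
    simpa [sub_eq_add_neg] using this
  have hm2 : HasProd (fun n : ℕ => ((1 - qq y ^ (n + 1) : ℝ) : ℂ))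
      ((∏' n : ℕ, (1 - qq y ^ (n + 1)) : ℝ) : ℂ) :=
    hm.hasProd.map Complex.ofRealHom Complex.continuous_ofReal
  have h1 : ModularForm.eta (pt y hy : ℂ) ^ 24 = (dl y : ℂ) := by
    rw [ModularForm.eta, mul_pow]
    have h2 : (∏' n, (1 - ModularForm.eta_q n (pt y hy : ℂ))) =
        ((∏' n : ℕ, (1 - qq y ^ (n + 1)) : ℝ) : ℂ) := by
      rw [← hm2.tprod_eq]
      refine tprod_congr fun n => ?_
      rw [ModularForm.eta_q, hq]
      push_cast
      rfl
    rw [h2, dl]
    push_cast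
    congr 1
    rw [← cexp_pt y hy, Function.Periodic.qParam, ← Complex.exp_nat_mul]
    congr 1
    push_cast
    ring
  exact h1

lemma dl_pos {y : ℝ} (hy : 0 < y) : 0 < dl y := by
  have h1 : 0 ≤ dl y := by
    unfold dl
    have := qq_pos y
    have h2 : 0 ≤ (∏' n : ℕ, (1 - qq y ^ (n + 1))) ^ 24 := by
      have e : (∏' n : ℕ, (1 - qq y ^ (n + 1))) ^ 24 =
        ((∏' n : ℕ, (1 - qq y ^ (n + 1))) ^ 12) ^ 2 := by ring
      rw [e]
      positivity
    positivity
  refine lt_of_le_of_ne h1 fun h => ?_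
  have h3 := ModularForm.discriminant_ne_zero (pt y hy)
  rw [disc_pt, ← h] at h3
  exact h3 (by norm_num)

/-- the derivative of the discriminant on the axis -/
lemma dl_deriv {y : ℝ} (hy : 0 < y) :
    HasDerivAt (fun t => Real.log (dl t)) (-(2 * Real.pi * e2 y)) y := by
  -- the function `η (i t)`
  have h1 : HasDerivAt (fun t : ℝ => ((t : ℂ) * I)) (1 * I) y :=
    (Complex.ofRealCLM.hasDerivAt).mul_const I
  have hz : (pt y hy : ℂ) = (y : ℂ) * I := pt_coe y hy
  have h2 : HasDerivAt ModularForm.eta (deriv ModularForm.eta ((y : ℂ) * I)) ((y : ℂ) * I) := by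
    rw [← hz]
    exact (ModularForm.differentiableAt_eta_of_mem_upperHalfPlaneSet (pt y hy).2).hasDerivAt
  have h3 : deriv ModularForm.eta ((y : ℂ) * I) =
      (Real.pi * I / 12 * e2 y) * ModularForm.eta ((y : ℂ) * I) := by
    have h4 := ModularForm.logDeriv_eta_eq_E2 (pt y hy)
    rw [E2_pt, logDeriv_apply, hz, div_eq_iff] at h4
    · exact h4
    · rw [← hz]
      exact ModularForm.eta_ne_zero (pt y hy).2
  have h5 : HasDerivAt (fun t : ℝ => ModularForm.eta ((t : ℂ) * I))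
      (((-(Real.pi / 12 * e2 y) : ℝ) : ℂ) * ModularForm.eta ((y : ℂ) * I)) y := by
    have h6 := HasDerivAt.comp_ofReal (e := fun z => ModularForm.eta (z * I)) (z := y) (by
      have := HasDerivAt.comp (y : ℂ) h2 ((hasDerivAt_id (y : ℂ)).mul_const I)
      exact this)
    refine h6.congr_deriv ?_
    rw [h3]
    push_cast
    linear_combination (Real.pi / 12 * e2 y * ModularForm.eta ((y : ℂ) * I)) * I_sq
  have h7 := h5.pow 24
  have h8 : ∀ t : ℝ, 0 < t → ModularForm.eta ((t : ℂ) * I) ^ 24 = (dl t : ℂ) := by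
    intro t ht
    rw [← pt_coe t ht]
    exact disc_pt t ht
  have h9 : HasDerivAt dl (-(2 * Real.pi * e2 y) * dl y) y := by
    have h10 := (Complex.reCLM.hasFDerivAt (x := ModularForm.eta ((y : ℂ) * I) ^ 24)).comp_hasDerivAt
      y h7
    have h11 : HasDerivAt (fun t : ℝ => (ModularForm.eta ((t : ℂ) * I) ^ 24).re)
        (-(2 * Real.pi * e2 y) * dl y) y := by
      refine h10.congr_deriv ?_
      have h12 : ((24 : ℕ) : ℂ) * ModularForm.eta ((y : ℂ) * I) ^ (24 - 1) *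
          (((-(Real.pi / 12 * e2 y) : ℝ) : ℂ) * ModularForm.eta ((y : ℂ) * I)) =
          ((-(2 * Real.pi * e2 y) * dl y : ℝ) : ℂ) := by
        rw [Complex.ofReal_mul, ← h8 y hy]
        push_cast
        ring
      rw [h12]
      simp
    refine h11.congr_of_eventuallyEq ?_
    filter_upwards [lt_mem_nhds hy] with t ht
    rw [h8 t ht, Complex.ofReal_re]
  have h13 := h9.log (dl_pos hy).ne'
  refine h13.congr_deriv ?_
  have := (dl_pos hy).ne'
  field_simp

end Pool.Agent.R465.FH
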