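import Pool.Agent.R465.FH.Ax

set_option autoImplicit false

/-!
# The modular invariant and the archimedean term on the imaginary axis are increasing
-/

namespace Pool.Agent.R465.FH

open UpperHalfPlane hiding I
open ModularForm Complex EisensteinSeries Filter Topology
open Pool.Agent.TH876.FH (jInv arch)

/-- the archimedean term on the axis -/
noncomputable def ar (y : ℝ) : ℝ := -(Real.log (dl y) + 6 * Real.log y)

/-- the modular invariant on the axis -/
noncomputable def J (y : ℝ) : ℝ := 1728 + e6 y ^ 2 / dl y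

lemma arch_pt (y : ℝ) (hy : 0 < y) : arch (pt y hy) = ar y := by
  have h1 := dl_pos hy
  have h2 : (pt y hy).im = y := rfl
  unfold arch ar
  rw [disc_pt, h2, Complex.norm_real, Real.norm_of_nonneg h1.le,
    Real.log_mul h1.ne' (by positivity), Real.log_pow]
  push_cast
  ring

lemma jInv_pt (y : ℝ) (hy : 0 < y) : jInv (pt y hy) = (J y : ℂ) := by
  have h1 := dl_pos hy
  have h2 := ModularForm.discriminant_eq_E₄_cube_sub_E₆_sq (pt y hy)
  have h3 : jInv (pt y hy) = E₄ (pt y hy) ^ 3 / ModularForm.discriminant (pt y hy) := rfl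
  have h4 : ((dl y : ℝ) : ℂ) ≠ 0 := by exact_mod_cast h1.ne'
  rw [E6_pt, disc_pt] at h2
  rw [h3, disc_pt, J]
  push_cast
  rw [div_eq_iff h4]
  have h5 : ((1728 : ℂ) + (e6 y : ℂ) ^ 2 / (dl y : ℂ)) * (dl y : ℂ) =
      1728 * (dl y : ℂ) + (e6 y : ℂ) ^ 2 := by
    field_simp
  rw [h5]
  linear_combination (-1728) * h2

lemma ar_deriv {y : ℝ} (hy : 0 < y) : HasDerivAt ar (2 * Real.pi * e2 y - 6 / y) y := by
  have h1 := ((dl_deriv hy).add ((Real.hasDerivAt_log hy.ne').const_mul 6)).neg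
  refine h1.congr_deriv ?_
  field_simp
  ring

lemma ar_cont : ContinuousOn ar (Set.Ici 1) := fun y hy =>
  (ar_deriv (lt_of_lt_of_le one_pos hy)).continuousAt.continuousWithinAt

lemma ar_mono : StrictMonoOn ar (Set.Ici 1) := by
  refine strictMonoOn_of_deriv_pos (convex_Ici 1) ar_cont fun y hy => ?_
  rw [interior_Ici, Set.mem_Ioi] at hy
  have hy0 : 0 < y := by linarith
  rw [(ar_deriv hy0).deriv]
  have h1 := e2_gt hy
  have hp := Real.pi_pos
  have h2 : 6 < 2 * Real.pi * e2 y := by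
    have h3 : 3 < Real.pi * e2 y := by
      rw [div_lt_iff₀ hp] at h1
      linarith
    linarith
  have h4 : 6 / y ≤ 6 := by
    rw [div_le_iff₀ hy0]
    linarith
  linarith

/-- the discriminant is small -/
lemma dl_le {x y : ℝ} (hx : 1 ≤ x) (h : x ≤ y) :
    Real.log (dl y) + 6 * y ≤ Real.log (dl x) + 6 * x := by
  have hd : ∀ t : ℝ, 0 < t → HasDerivAt (fun t => Real.log (dl t) + 6 * t)
      (-(2 * Real.pi * e2 t) + 6) t := fun t ht => by
    have h1 := (dl_deriv ht).add ((hasDerivAt_id t).const_mul 6)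
    refine h1.congr_deriv (by ring)
  have h2 : AntitoneOn (fun t => Real.log (dl t) + 6 * t) (Set.Ici 1) := by
    refine antitoneOn_of_deriv_nonpos (convex_Ici 1) (fun t ht => (hd t (lt_of_lt_of_le one_pos
      ht)).continuousAt.continuousWithinAt) (fun t ht => ?_) fun t ht => ?_
    · rw [interior_Ici, Set.mem_Ioi] at ht
      exact (hd t (by linarith)).differentiableAt.differentiableWithinAt
    · rw [interior_Ici, Set.mem_Ioi] at ht
      rw [(hd t (by linarith)).deriv]
      have h1 := e2_gt ht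
      have hp := Real.pi_pos
      rw [div_lt_iff₀ hp] at h1
      linarith
  exact h2 hx (hx.trans h) h

lemma dl_le' {x y : ℝ} (hx : 1 ≤ x) (h : x ≤ y) : dl y ≤ dl x := by
  have h1 := dl_le hx h
  have h2 : Real.log (dl y) ≤ Real.log (dl x) := by linarith
  exact (Real.log_le_log_iff (dl_pos (by linarith)) (dl_pos (by linarith))).1 h2

lemma J_mono : StrictMonoOn J (Set.Ici 1) := by
  intro x hx y hy hxy
  have hx1 : (1 : ℝ) ≤ x := hx
  have hy1 : (1 : ℝ) ≤ y := hy
  unfold J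
  have h1 := dl_pos (show 0 < x by linarith)
  have h2 := dl_pos (show 0 < y by linarith)
  have h3 := dl_le' hx1 hxy.le
  have h4 := e6_nonneg hx1
  have h5 := e6_lt (show 0 < x by linarith) hxy
  have h6 : e6 x ^ 2 < e6 y ^ 2 := pow_lt_pow_left₀ h5 h4 two_ne_zero
  have h7 : e6 x ^ 2 / dl x < e6 y ^ 2 / dl y := by
    calc e6 x ^ 2 / dl x ≤ e6 x ^ 2 / dl y := div_le_div_of_nonneg_left (sq_nonneg _) h2 h3
      _ < _ := (div_lt_div_iff_of_pos_right h2).2 h6
  linarith

lemma J_one : J 1 = 1728 := by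
  unfold J
  rw [e6_one]
  norm_num

lemma ar_top : Tendsto ar atTop atTop := by
  have h1 : Tendsto (fun y : ℝ => -Real.log (dl 1) - 6 + (6 * y - 6 * Real.log y)) atTop atTop := by
    have h2 : Tendsto (fun y : ℝ => 6 * y - 6 * Real.log y) atTop atTop := by
      have h3 : Tendsto (fun y : ℝ => y * (6 - 6 * (Real.log y / y))) atTop atTop := by
        have h4 : Tendsto (fun y : ℝ => Real.log y / y) atTop (𝓝 0) := by
          have := Real.isLittleO_log_id_atTop.tendsto_div_nhds_zero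
          simpa using this
        have h5 : Tendsto (fun y : ℝ => 6 - 6 * (Real.log y / y)) atTop (𝓝 (6 - 6 * 0)) :=
          tendsto_const_nhds.sub (h4.const_mul 6)
        rw [mul_zero, sub_zero] at h5
        exact tendsto_id.atTop_mul_pos (by norm_num) h5
      refine h3.congr' ?_
      filter_upwards [eventually_gt_atTop 0] with y hy
      field_simp
    exact tendsto_atTop_add_const_left _ _ h2
  refine tendsto_atTop_mono' _ ?_ h1
  filter_upwards [eventually_ge_atTop 1] with y hy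
  have h2 := dl_le le_rfl hy
  unfold ar
  linarith

lemma J_top : Tendsto J atTop atTop := by
  have h0 : 0 < e6 2 := lt_of_le_of_lt (e6_nonneg le_rfl) (e6_lt one_pos (by norm_num))
  have h1 : Tendsto (fun y : ℝ => e6 2 ^ 2 / dl 1 * Real.exp (6 * (y - 1))) atTop atTop := by
    have h2 : Tendsto (fun y : ℝ => 6 * (y - 1)) atTop atTop :=
      (tendsto_atTop_add_const_right _ (-1 : ℝ) tendsto_id).const_mul_atTop (by norm_num)
    exact (Real.tendsto_exp_atTop.comp h2).const_mul_atTop (div_pos (by positivity) (dl_pos one_pos))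
  refine tendsto_atTop_mono' _ ?_ h1
  filter_upwards [eventually_ge_atTop 2] with y hy
  have h2 := dl_le le_rfl (show (1 : ℝ) ≤ y by linarith)
  have h3 := dl_pos (show 0 < y by linarith)
  have h4 := dl_pos one_pos
  have h5 : dl y ≤ dl 1 * Real.exp (-(6 * (y - 1))) := by
    rw [← Real.log_le_log_iff h3 (by positivity), Real.log_mul h4.ne' (Real.exp_pos _).ne',
      Real.log_exp]
    linarith
  have h6 : e6 2 ≤ e6 y := by
    rcases eq_or_lt_of_le hy with h | h
    · rw [← h]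
    · exact (e6_lt (by norm_num) h).le
  unfold J
  have h7 : e6 2 ^ 2 / dl 1 * Real.exp (6 * (y - 1)) ≤ e6 y ^ 2 / dl y := by
    rw [div_mul_eq_mul_div, div_le_div_iff₀ h4 h3]
    calc e6 2 ^ 2 * Real.exp (6 * (y - 1)) * dl y
        ≤ e6 2 ^ 2 * Real.exp (6 * (y - 1)) * (dl 1 * Real.exp (-(6 * (y - 1)))) :=
          mul_le_mul_of_nonneg_left h5 (by positivity)
      _ = e6 2 ^ 2 * dl 1 * (Real.exp (6 * (y - 1)) * Real.exp (-(6 * (y - 1)))) := by ring
      _ = e6 2 ^ 2 * dl 1 := by rw [← Real.exp_add, add_neg_cancel, Real.exp_zero, mul_one]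
      _ ≤ _ := mul_le_mul_of_nonneg_right (pow_le_pow_left₀ h0.le h6 2) h4.le
  linarith

lemma J_cont : ContinuousOn J (Set.Ici 1) := by
  have h1 : ContinuousOn J (Set.Ioi 0) := by
    rw [continuousOn_iff_continuous_domRestrict]
    have h2 : Continuous fun y : Set.Ioi (0 : ℝ) => pt y.1 (Set.mem_Ioi.1 y.2) := by
      rw [UpperHalfPlane.isEmbedding_coe.continuous_iff]
      have : (fun y : Set.Ioi (0 : ℝ) => ((pt y.1 (Set.mem_Ioi.1 y.2) : ℍ) : ℂ)) =
          fun y : Set.Ioi (0 : ℝ) => ((y.1 : ℝ) : ℂ) * I := funext fun y => pt_coe _ _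
      show Continuous (fun y : Set.Ioi (0 : ℝ) => ((pt y.1 (Set.mem_Ioi.1 y.2) : ℍ) : ℂ))
      rw [this]
      fun_prop
    have h3 : (Set.Ioi (0 : ℝ)).domRestrict J =
        fun y => (jInv (pt y.1 (Set.mem_Ioi.1 y.2))).re := by
      funext y
      have h4 := congrArg Complex.re (jInv_pt y.1 (Set.mem_Ioi.1 y.2))
      rw [Complex.ofReal_re] at h4
      exact h4.symm
    rw [h3]
    exact Complex.continuous_re.comp (Pool.Agent.Y729.FW.cont_j.comp h2)
  exact h1.mono fun y hy => Set.mem_Ioi.2 (lt_of_lt_of_le one_pos (Set.mem_Ici.1 hy))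

lemma J_surj {j : ℝ} (hj : 1728 ≤ j) : ∃ y : ℝ, 1 ≤ y ∧ J y = j := by
  obtain ⟨Y, hY1, hY⟩ := ((eventually_ge_atTop 1).and (J_top.eventually_ge_atTop j)).exists
  have h1 := intermediate_value_Icc hY1 (J_cont.mono Set.Icc_subset_Ici_self)
  obtain ⟨y, hy, h2⟩ := h1 ⟨by rw [J_one]; exact hj, hY⟩
  exact ⟨y, hy.1, h2⟩

lemma ar_surj {a : ℝ} (ha : ar 1 ≤ a) : ∃ y : ℝ, 1 ≤ y ∧ ar y = a := by
  obtain ⟨Y, hY1, hY⟩ := ((eventually_ge_atTop 1).and (ar_top.eventually_ge_atTop a)).exists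
  have h1 := intermediate_value_Icc hY1 (ar_cont.mono Set.Icc_subset_Ici_self)
  obtain ⟨y, hy, h2⟩ := h1 ⟨ha, hY⟩
  exact ⟨y, hy.1, h2⟩

/-- the threshold for the invariant -/
lemma thr : ∃ T : ℝ → ℝ, (∀ a, a < ar 1 → T a < 1) ∧ (∀ a, ar 1 ≤ a → 1 ≤ T a) ∧
    (∀ a y : ℝ, 1 ≤ y → (ar y ≤ a ↔ J y ≤ 1728 * T a)) ∧ Tendsto T atTop atTop ∧
    ∀ y : ℝ, 1 ≤ y → T (ar y) = J y / 1728 := by
  classical
  choose Y hY1 hY using fun a : ℝ => fun h : ar 1 ≤ a => ar_surj h
  refine ⟨fun a => if h : ar 1 ≤ a then J (Y a h) / 1728 else 0, fun a ha => ?_, fun a ha => ?_,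
    fun a y hy => ?_, ?_, fun y hy => ?_⟩
  · beta_reduce
    rw [dif_neg (not_le.2 ha)]
    norm_num
  · beta_reduce
    rw [dif_pos ha, le_div_iff₀ (by norm_num), one_mul, ← J_one]
    exact J_mono.monotoneOn Set.self_mem_Ici (hY1 a ha) (hY1 a ha)
  · beta_reduce
    by_cases ha : ar 1 ≤ a
    · rw [dif_pos ha, mul_div_cancel₀ _ (by norm_num : (1728 : ℝ) ≠ 0),
        J_mono.le_iff_le hy (hY1 a ha)]
      conv_lhs => rw [← hY a ha]
      rw [ar_mono.le_iff_le hy (hY1 a ha)]
    · rw [dif_neg ha]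
      constructor
      · intro h
        exact absurd ((ar_mono.monotoneOn Set.self_mem_Ici hy hy).trans h) ha
      · intro h
        have := J_mono.monotoneOn Set.self_mem_Ici hy hy
        rw [J_one] at this
        norm_num at h
        linarith
  · rw [tendsto_atTop]
    intro b
    obtain ⟨y, hy1, hy⟩ := ((eventually_ge_atTop 1).and
      (J_top.eventually_ge_atTop (1728 * b))).exists
    filter_upwards [eventually_ge_atTop (ar y)] with a ha
    have h1 : ar 1 ≤ a := (ar_mono.monotoneOn Set.self_mem_Ici hy1 hy1).trans ha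
    rw [dif_pos h1, le_div_iff₀ (by norm_num)]
    have h2 : y ≤ Y a h1 := by
      rw [← ar_mono.le_iff_le hy1 (hY1 a h1), hY a h1]
      exact ha
    have h3 := J_mono.monotoneOn hy1 (hY1 a h1) h2
    linarith
  · beta_reduce
    have h1 : ar 1 ≤ ar y := ar_mono.monotoneOn Set.self_mem_Ici hy hy
    rw [dif_pos h1, ar_mono.injOn (hY1 _ h1) hy (hY _ h1)]

end Pool.Agent.R465.FH
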