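import Pool.Agent.R465.FH.Law

set_option autoImplicit false

/-!
# The archimedean law
-/

namespace Pool.Agent.R465.FH

open Filter Topology Pool.Agent.Y679.Jl MeasureTheory
open Pool.Agent.TH876.FH (jInv arch)

/-- the threshold function -/
noncomputable def Th : ℝ → ℝ := thr.choose

lemma Th_lt {a : ℝ} (ha : a < ar 1) : Th a < 1 := thr.choose_spec.1 a ha

lemma Th_ge {a : ℝ} (ha : ar 1 ≤ a) : 1 ≤ Th a := thr.choose_spec.2.1 a ha

lemma Th_iff {a y : ℝ} (hy : 1 ≤ y) : ar y ≤ a ↔ J y ≤ 1728 * Th a := thr.choose_spec.2.2.1 a y hy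

lemma Th_top : Tendsto Th atTop atTop := thr.choose_spec.2.2.2.1

lemma Th_ar {y : ℝ} (hy : 1 ≤ y) : Th (ar y) = J y / 1728 := thr.choose_spec.2.2.2.2 y hy

/-- the law of the archimedean term -/
noncomputable def archLaw (x : ℝ) : ℝ :=
  (∫ s in {s : ℝ | 0 < s ∧ s ≤ 1 ∧ ∃ τ : UpperHalfPlane, τ.re = 0 ∧ 1 ≤ τ.im ∧
    jInv τ = ((256 * (1 + s + s ^ 2) ^ 3 / (s * (1 + s)) ^ 2 : ℝ) : ℂ) ∧ arch τ ≤ x},
    (s * (1 + s)) ^ (-(2 / 3) : ℝ)) / ∫ s in Set.Ioc (0 : ℝ) 1, (s * (1 + s)) ^ (-(2 / 3) : ℝ)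

lemma pt_of {τ : UpperHalfPlane} (h0 : τ.re = 0) : τ = pt τ.im τ.im_pos := by
  apply UpperHalfPlane.ext
  apply Complex.ext
  · exact h0
  · rfl

lemma ps_eq {s : ℝ} (hs : 0 < s) :
    256 * (1 + s + s ^ 2) ^ 3 / (s * (1 + s)) ^ 2 = 1728 * ps s := by
  unfold ps
  field_simp
  ring

lemma archLaw_eq (x : ℝ) : archLaw x = Fl (Th x) := by
  unfold archLaw Fl
  have : {s : ℝ | 0 < s ∧ s ≤ 1 ∧ ∃ τ : UpperHalfPlane, τ.re = 0 ∧ 1 ≤ τ.im ∧
      jInv τ = ((256 * (1 + s + s ^ 2) ^ 3 / (s * (1 + s)) ^ 2 : ℝ) : ℂ) ∧ arch τ ≤ x} =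
      {s : ℝ | 0 < s ∧ s ≤ 1 ∧ Cj (Th x) s} := by
    ext s
    constructor
    · rintro ⟨h1, h2, τ, h3, h4, h5, h6⟩
      refine ⟨h1, h2, ?_⟩
      rw [Cj_iff h1]
      rw [pt_of h3, jInv_pt, ps_eq h1] at h5
      rw [pt_of h3, arch_pt] at h6
      have h7 : J τ.im = 1728 * ps s := by exact_mod_cast h5
      rw [Th_iff h4, h7] at h6
      linarith
    · rintro ⟨h1, h2, h3⟩
      rw [Cj_iff h1] at h3
      have h4 := ps_ge_one h1
      obtain ⟨y, hy, hJ⟩ := J_surj (show 1728 ≤ 1728 * ps s by linarith)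
      have hy0 : 0 < y := by linarith
      refine ⟨h1, h2, pt y hy0, rfl, hy, ?_, ?_⟩
      · rw [jInv_pt, ps_eq h1, hJ]
      · rw [arch_pt, Th_iff hy, hJ]
        linarith
  rw [this]
  rfl

lemma archLaw_nonneg (x : ℝ) : 0 ≤ archLaw x := by
  rw [archLaw_eq]
  exact Fl_nonneg _

lemma archLaw_le_one (x : ℝ) : archLaw x ≤ 1 := by
  rw [archLaw_eq]
  exact Fl_le_one _

lemma Fl_mono : Monotone Fl := by
  intro t u htu
  rcases lt_or_ge t 1 with h | h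
  · rw [Fl_small h]
    exact Fl_nonneg _
  · obtain ⟨τ, h0, h1, -, h2⟩ := Pool.Agent.Y679.Jl.thr h
    obtain ⟨σ, g0, g1, -, g2⟩ := Pool.Agent.Y679.Jl.thr (h.trans htu)
    rw [Fl_big h0 h1 h2, Fl_big g0 g1 g2]
    refine div_le_div_of_nonneg_right ?_ Gi_zero_pos.le
    refine Gi_anti g0.le ?_ h1
    have h3 : Cj t τ := (h2 τ h0 h1).2 le_rfl
    have h4 : Cj u τ := by
      rw [Cj_iff h0] at h3 ⊢
      exact h3.trans htu
    exact (g2 τ h0 h1).1 h4

lemma archLaw_zero {a : ℝ} (h : a < ar 1) : archLaw a = 0 := by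
  rw [archLaw_eq, Fl_small (Th_lt h)]

lemma archLaw_mono : Monotone archLaw := by
  intro a b hab
  rcases lt_or_ge a (ar 1) with h | h
  · rw [archLaw_zero h]
    exact archLaw_nonneg _
  · rw [archLaw_eq, archLaw_eq]
    apply Fl_mono
    obtain ⟨y, hy, rfl⟩ := ar_surj h
    have h1 := (Th_iff hy).1 hab
    rw [Th_ar hy, div_le_iff₀ (by norm_num)]
    linarith

lemma archLaw_lt_one (x : ℝ) : archLaw x < 1 := by
  rw [archLaw_eq]
  rcases lt_or_ge (Th x) 1 with h | h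
  · rw [Fl_small h]
    norm_num
  · obtain ⟨τ, h0, h1, -, h2⟩ := Pool.Agent.Y679.Jl.thr h
    rw [Fl_big h0 h1 h2, div_lt_one Gi_zero_pos]
    have h3 := Gi_sub le_rfl h0.le h1
    have h4 : 0 < ∫ s in (0 : ℝ)..τ, gd s :=
      intervalIntegral.intervalIntegral_pos_of_pos_on (gd_int le_rfl h0.le)
        (fun s hs => gd_pos hs.1) h0
    linarith

lemma Gi_cont : ContinuousOn Gi (Set.Icc 0 1) := by
  have h1 : ContinuousOn (fun τ : ℝ => ∫ s in (0 : ℝ)..τ, gd s) (Set.Icc 0 1) := by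
    have h2 : IntegrableOn gd (Set.uIcc 0 1) := by
      have := (gd_int le_rfl (zero_le_one)).1
      rw [Set.uIcc_of_le zero_le_one, integrableOn_Icc_iff_integrableOn_Ioc]
      exact this
    have := intervalIntegral.continuousOn_primitive_interval h2
    rwa [Set.uIcc_of_le zero_le_one] at this
  have h2 : Set.EqOn Gi (fun τ : ℝ => Gi 0 - ∫ s in (0 : ℝ)..τ, gd s) (Set.Icc 0 1) := by
    intro τ hτ
    have := Gi_sub le_rfl hτ.1 hτ.2
    simp only
    linarith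
  exact (continuousOn_const.sub h1).congr h2

lemma archLaw_surj {u : ℝ} (h0 : 0 ≤ u) (h1 : u < 1) : ∃ x, archLaw x = u := by
  have h2 := intermediate_value_Icc' (zero_le_one : (0 : ℝ) ≤ 1) Gi_cont
  rw [Gi_one] at h2
  have hG := Gi_zero_pos
  obtain ⟨τ, hτ, h3⟩ := h2 (show u * Gi 0 ∈ Set.Icc 0 (Gi 0) from ⟨by positivity, by nlinarith⟩)
  have h4 : 0 < τ := by
    refine lt_of_le_of_ne hτ.1 ?_
    rintro rfl
    nlinarith
  have h5 := ps_ge_one h4
  obtain ⟨y, hy, hJ⟩ := J_surj (show 1728 ≤ 1728 * ps τ by linarith)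
  refine ⟨ar y, ?_⟩
  rw [archLaw_eq, Th_ar hy, hJ, mul_div_cancel_left₀ _ (by norm_num : (1728 : ℝ) ≠ 0),
    Fl_big h4 hτ.2 (fun s hs hs1 => ?_), h3, mul_div_assoc, div_self hG.ne', mul_one]
  rw [Cj_iff hs]
  constructor
  · intro h6
    by_contra hcon
    push Not at hcon
    have := ps_lt hs hcon hτ.2
    linarith
  · intro h6
    exact ps_le h4 h6 hs1

lemma archLaw_cont : Continuous archLaw := by
  have h1 : Continuous fun x => (⟨archLaw x, archLaw_nonneg x, archLaw_lt_one x⟩ :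
      Set.Ico (0 : ℝ) 1) := by
    refine Monotone.continuous_of_surjective (fun a b hab => ?_) fun u => ?_
    · exact archLaw_mono hab
    · obtain ⟨x, hx⟩ := archLaw_surj u.2.1 u.2.2
      exact ⟨x, Subtype.ext hx⟩
  exact continuous_subtype_val.comp h1

lemma archLaw_top : Tendsto archLaw atTop (𝓝 1) := by
  have : archLaw = Fl ∘ Th := funext archLaw_eq
  rw [this]
  exact Fl_tendsto.comp Th_top

end Pool.Agent.R465.FH
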