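import Pool.Agent.R465.FH.Cts

set_option autoImplicit false

/-!
# The limit law of the Faltings height
-/

namespace Pool.Agent.R465.FH

open Filter Topology Pool.Agent.Y679.Jl Pool.Agent.H925R.Szpiro Pool.Agent.Y679.Par
  Pool.Agent.Y679.Cur
open Pool.Agent.TH876.FH (jInv arch)
open Pool.Agent.Y679.Fh (minDisc disc_Eq c4_Eq c6_Eq minDisc_le Hh_eq)

/-- the period on the imaginary axis -/
def IsPer (q : ℤ × ℤ) (τ : UpperHalfPlane) : Prop :=
  τ.re = 0 ∧ 1 ≤ τ.im ∧ jInv τ = (((EE q).c₄ ^ 3 / (EE q).Δ : ℚ) : ℂ)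

/-- the height -/
noncomputable def ht (q : ℤ × ℤ) (τ : UpperHalfPlane) : ℝ :=
  (Real.log (minDisc (EE q) : ℝ) + arch τ) / 12

lemma D_pos2 {q : ℤ × ℤ} (h1 : IsMin q.1 q.2) (h2 : FullS q.1 q.2) : 0 < D q.1 q.2 := by
  obtain ⟨w, -, hw⟩ := quot h1 h2
  exact_mod_cast D_pos' h1 hw

lemma j_eq {q : ℤ × ℤ} (h1 : IsMin q.1 q.2) (h2 : FullS q.1 q.2) :
    (((EE q).c₄ ^ 3 / (EE q).Δ : ℚ) : ℂ) =
      ((1728 * ((Hh q : ℤ) : ℝ) / ((D q.1 q.2 : ℤ) : ℝ) : ℝ) : ℂ) := by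
  have hD := D_pos2 h1 h2
  have hD' : ((D q.1 q.2 : ℤ) : ℂ) ≠ 0 := by exact_mod_cast hD.ne'
  rw [c4_Eq, disc_Eq, (Hh_eq hD).1]
  push_cast
  rw [div_eq_div_iff (mul_ne_zero (by norm_num) hD') hD']
  ring

lemma per_iff {q : ℤ × ℤ} (h1 : IsMin q.1 q.2) (h2 : FullS q.1 q.2) {y : ℝ} (hy : 1 ≤ y) :
    IsPer q (pt y (lt_of_lt_of_le one_pos hy)) ↔
      J y = 1728 * ((Hh q : ℤ) : ℝ) / ((D q.1 q.2 : ℤ) : ℝ) := by
  unfold IsPer
  rw [j_eq h1 h2, jInv_pt]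
  constructor
  · rintro ⟨-, -, h⟩
    exact_mod_cast h
  · intro h
    refine ⟨rfl, hy, ?_⟩
    exact_mod_cast h

lemma per_ex {q : ℤ × ℤ} (h1 : IsMin q.1 q.2) (h2 : FullS q.1 q.2) : ∃! τ, IsPer q τ := by
  have hD : (0 : ℝ) < ((D q.1 q.2 : ℤ) : ℝ) := by exact_mod_cast D_pos2 h1 h2
  have hH : ((D q.1 q.2 : ℤ) : ℝ) ≤ ((Hh q : ℤ) : ℝ) := by exact_mod_cast D_le_H q
  obtain ⟨y, hy, hJ⟩ := J_surj (show 1728 ≤ 1728 * ((Hh q : ℤ) : ℝ) / ((D q.1 q.2 : ℤ) : ℝ) by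
    rw [le_div_iff₀ hD]
    linarith)
  refine ⟨pt y (lt_of_lt_of_le one_pos hy), (per_iff h1 h2 hy).2 hJ, fun τ hτ => ?_⟩
  have h3 := pt_of hτ.1
  rw [h3] at hτ
  have h4 := (per_iff h1 h2 hτ.2.1).1 hτ
  have h5 : τ.im = y := J_mono.injOn hτ.2.1 hy (h4.trans hJ.symm)
  rw [h3]
  congr 1

/-- the archimedean term against a threshold -/
lemma arch_iff {q : ℤ × ℤ} (h1 : IsMin q.1 q.2) (h2 : FullS q.1 q.2) (x : ℝ) :
    (∃ τ, IsPer q τ ∧ arch τ ≤ x) ↔ ((Hh q : ℤ) : ℝ) ≤ Th x * ((D q.1 q.2 : ℤ) : ℝ) := by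
  have hD : (0 : ℝ) < ((D q.1 q.2 : ℤ) : ℝ) := by exact_mod_cast D_pos2 h1 h2
  have key : ∀ y : ℝ, 1 ≤ y → J y = 1728 * ((Hh q : ℤ) : ℝ) / ((D q.1 q.2 : ℤ) : ℝ) →
      (ar y ≤ x ↔ ((Hh q : ℤ) : ℝ) ≤ Th x * ((D q.1 q.2 : ℤ) : ℝ)) := by
    intro y hy hJ
    rw [Th_iff hy, hJ, div_le_iff₀ hD]
    constructor
    · intro h
      linarith
    · intro h
      linarith
  constructor
  · rintro ⟨τ, hτ, ha⟩
    have h3 := pt_of hτ.1
    rw [h3] at hτ ha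
    rw [arch_pt] at ha
    exact (key _ hτ.2.1 ((per_iff h1 h2 hτ.2.1).1 hτ)).1 ha
  · intro h
    obtain ⟨τ, hτ, -⟩ := per_ex h1 h2
    refine ⟨τ, hτ, ?_⟩
    have h3 := pt_of hτ.1
    rw [h3] at hτ ⊢
    rw [arch_pt]
    exact (key _ hτ.2.1 ((per_iff h1 h2 hτ.2.1).1 hτ)).2 h

lemma ratio_pos' {lam : ℤ × ℤ → ℕ} (hl : Pool.Agent.Y679.Par.Fac lam) {q : ℤ × ℤ}
    (h1 : IsMin q.1 q.2) (h2 : FullS q.1 q.2) : 0 < ratio lam q := by
  obtain ⟨w, hw0, hw⟩ := quot h1 h2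
  rw [ratio_eq hl h1 h2 hw]
  have h3 := val_ge (k := cl lam q) hw0
  have h4 : (0 : ℚ) < w := by exact_mod_cast hw0
  exact lt_of_lt_of_le (mul_pos cz_pos h4) h3

lemma log_ratio {lam : ℤ × ℤ → ℕ} (hl : Pool.Agent.Y679.Par.Fac lam) {q : ℤ × ℤ}
    (h1 : IsMin q.1 q.2) (h2 : FullS q.1 q.2) :
    Real.log (ratio lam q) = Real.log (minDisc (EE q) : ℝ) -
      2 * Real.log ((lam q * condS q.1 q.2 : ℕ) : ℝ) := by
  have h3 := ratio_pos' hl h1 h2
  have h4 : ((lam q * condS q.1 q.2 : ℕ) : ℝ) ≠ 0 := by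
    have h5 := condS_pos q.1 q.2
    have h6 := (hl.1 q h1 h2).1
    have : lam q * condS q.1 q.2 ≠ 0 := by positivity
    exact_mod_cast this
  have h7 : (minDisc (EE q) : ℝ) ≠ 0 := by
    intro h
    have h8 : (minDisc (EE q) : ℚ) = 0 := by exact_mod_cast h
    unfold ratio at h3
    rw [h8, zero_div] at h3
    exact lt_irrefl _ h3
  have h9 : ((ratio lam q : ℚ) : ℝ) = (minDisc (EE q) : ℝ) / ((lam q * condS q.1 q.2 : ℕ) : ℝ) ^ 2 := by
    unfold ratio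
    push_cast
    rfl
  rw [h9, Real.log_div h7 (pow_ne_zero _ h4), Real.log_pow]
  push_cast
  ring

lemma set1 {lam : ℤ × ℤ → ℕ} (v : ℚ) (x N : ℝ) :
    ({q | q ∈ Md lam N ∧ ∃ τ, IsPer q τ ∧ (ratio lam q = v ∧ arch τ ≤ x)} : Set (ℤ × ℤ)) =
      {q | q ∈ Md lam N ∧ ((Hh q : ℤ) : ℝ) ≤
        (if ratio lam q = v then Th x else 0) * ((D q.1 q.2 : ℤ) : ℝ)} := by
  ext q
  constructor
  · rintro ⟨hq, τ, hτ, hv, ha⟩
    refine ⟨hq, ?_⟩
    rw [if_pos hv]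
    exact (arch_iff hq.1 hq.2.1 x).1 ⟨τ, hτ, ha⟩
  · rintro ⟨hq, h⟩
    refine ⟨hq, ?_⟩
    by_cases hv : ratio lam q = v
    · rw [if_pos hv] at h
      obtain ⟨τ, hτ, ha⟩ := (arch_iff hq.1 hq.2.1 x).2 h
      exact ⟨τ, hτ, hv, ha⟩
    · rw [if_neg hv, zero_mul] at h
      have hD : (0 : ℝ) < ((D q.1 q.2 : ℤ) : ℝ) := by exact_mod_cast D_pos2 hq.1 hq.2.1
      have hH : ((D q.1 q.2 : ℤ) : ℝ) ≤ ((Hh q : ℤ) : ℝ) := by exact_mod_cast D_le_H q
      linarith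

lemma set2 {lam : ℤ × ℤ → ℕ} (hl : Pool.Agent.Y679.Par.Fac lam) (x N : ℝ) :
    ({q | q ∈ Md lam N ∧ ∃ τ, IsPer q τ ∧
      ht q τ ≤ Real.log ((lam q * condS q.1 q.2 : ℕ) : ℝ) / 6 + x} : Set (ℤ × ℤ)) =
      {q | q ∈ Md lam N ∧ ((Hh q : ℤ) : ℝ) ≤
        Th (12 * x - Real.log (ratio lam q)) * ((D q.1 q.2 : ℤ) : ℝ)} := by
  ext q
  constructor
  · rintro ⟨hq, τ, hτ, ha⟩
    refine ⟨hq, (arch_iff hq.1 hq.2.1 _).1 ⟨τ, hτ, ?_⟩⟩
    rw [log_ratio hl hq.1 hq.2.1]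
    unfold ht at ha
    linarith
  · rintro ⟨hq, h⟩
    obtain ⟨τ, hτ, ha⟩ := (arch_iff hq.1 hq.2.1 _).2 h
    refine ⟨hq, τ, hτ, ?_⟩
    rw [log_ratio hl hq.1 hq.2.1] at ha
    unfold ht
    linarith

/-- the limit law -/
noncomputable def law (ν : ℚ → ℝ) (x : ℝ) : ℝ := ∑' v : ℚ, ν v * archLaw (12 * x - Real.log v)

/-- the share -/
noncomputable def share (lam : ℤ × ℤ → ℕ) (P : ℤ × ℤ → UpperHalfPlane → Prop) (N : ℝ) : ℝ :=
  (({q | q ∈ Md lam N ∧ ∃ τ, IsPer q τ ∧ P q τ} : Set (ℤ × ℤ)).ncard : ℝ) / ((Md lam N).ncard : ℝ)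

lemma law_summable {ν : ℚ → ℝ} (h0 : ∀ v, 0 ≤ ν v) (h1 : Summable ν) (x : ℝ) :
    Summable fun v : ℚ => ν v * archLaw (12 * x - Real.log v) := by
  refine Summable.of_nonneg_of_le (fun v => mul_nonneg (h0 v) (archLaw_nonneg _)) (fun v => ?_) h1
  have := mul_le_mul_of_nonneg_left (archLaw_le_one (12 * x - Real.log v)) (h0 v)
  rwa [mul_one] at this

theorem main {lam : ℤ × ℤ → ℕ} (hl : Pool.Agent.Y679.Par.Fac lam) :
    ∃ ν : ℚ → ℝ, (∀ v, 0 ≤ ν v) ∧ (∀ v, ν v ≠ 0 → 0 < v) ∧ HasSum ν 1 ∧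
      (∀ (v : ℚ) (x : ℝ), Tendsto (share lam fun q τ => ratio lam q = v ∧ arch τ ≤ x) atTop
        (𝓝 (ν v * archLaw x))) ∧
      (∀ x : ℝ, Tendsto (share lam fun q τ =>
        ht q τ ≤ Real.log ((lam q * condS q.1 q.2 : ℕ) : ℝ) / 6 + x) atTop (𝓝 (law ν x))) ∧
      Continuous (law ν) ∧ Monotone (law ν) ∧ (∀ x, law ν x < 1) ∧
      Tendsto (law ν) atBot (𝓝 0) ∧ Tendsto (law ν) atTop (𝓝 1) := by
  classical
  obtain ⟨A, ν, hA, h0, h1, hpos, hMd, hgen⟩ := gen hl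
  have hs : ∀ (g : ℚ → ℝ) (v0 : ℚ), (∀ v, v0 < v → g v < 1) →
      Tendsto (fun N : ℝ => (({q | q ∈ Md lam N ∧ ((Hh q : ℤ) : ℝ) ≤
        g (ratio lam q) * ((D q.1 q.2 : ℤ) : ℝ)} : Set (ℤ × ℤ)).ncard : ℝ) /
          ((Md lam N).ncard : ℝ)) atTop (𝓝 (∑' v, ν v * Fl (g v))) := by
    intro g v0 hg
    have h2 := (hgen g v0 hg).div hMd hA.ne'
    rw [mul_div_cancel_left₀ _ hA.ne'] at h2
    refine h2.congr' ?_
    filter_upwards [eventually_gt_atTop 0] with N hN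
    have h3 : (0 : ℝ) < N ^ ((2 : ℝ) / 3) := by positivity
    exact div_div_div_cancel_right₀ h3.ne' _ _
  refine ⟨ν, h0, hpos, h1, fun v x => ?_, fun x => ?_, ?_, ?_, fun x => ?_, ?_, ?_⟩
  · have h2 := hs (fun u => if u = v then Th x else 0) v (fun u hu => by
      simp only [if_neg hu.ne']
      norm_num)
    have h3 : ∑' u, ν u * Fl (if u = v then Th x else 0) = ν v * archLaw x := by
      rw [tsum_eq_single v fun u hu => by rw [if_neg hu, Fl_small (by norm_num), mul_zero],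
        if_pos rfl, archLaw_eq]
    rw [h3] at h2
    refine h2.congr fun N => ?_
    unfold share
    rw [set1]
  · obtain ⟨v0, hv0⟩ := exists_rat_gt (Real.exp (12 * x - ar 1))
    have h2 := hs (fun u => Th (12 * x - Real.log u)) v0 (fun u hu => by
      apply Th_lt
      have h3 : Real.exp (12 * x - ar 1) < (u : ℝ) := hv0.trans (by exact_mod_cast hu)
      have h4 := (Real.lt_log_iff_exp_lt ((Real.exp_pos _).trans h3)).2 h3
      linarith)
    have h3 : ∑' u : ℚ, ν u * Fl (Th (12 * x - Real.log u)) = law ν x := by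
      unfold law
      simp only [archLaw_eq]
    rw [h3] at h2
    refine h2.congr fun N => ?_
    unfold share
    rw [set2 hl]
  · unfold law
    refine continuous_tsum (u := ν) (fun v => ?_) h1.summable fun v x => ?_
    · exact continuous_const.mul (archLaw_cont.comp (by fun_prop))
    · rw [Real.norm_of_nonneg (mul_nonneg (h0 v) (archLaw_nonneg _))]
      have := mul_le_mul_of_nonneg_left (archLaw_le_one (12 * x - Real.log v)) (h0 v)
      rwa [mul_one] at this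
  · intro x y hxy
    refine (law_summable h0 h1.summable x).tsum_le_tsum (fun v => ?_)
      (law_summable h0 h1.summable y)
    exact mul_le_mul_of_nonneg_left (archLaw_mono (by linarith)) (h0 v)
  · obtain ⟨v, hv⟩ : ∃ v, ν v ≠ 0 := by
      by_contra hcon
      push Not at hcon
      have : ν = fun _ => 0 := funext hcon
      rw [this] at h1
      exact zero_ne_one (hasSum_zero.unique h1)
    have h2 : law ν x < ∑' v, ν v := by
      refine Summable.tsum_lt_tsum (i := v) (fun u => ?_) ?_ (law_summable h0 h1.summable x)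
        h1.summable
      · have := mul_le_mul_of_nonneg_left (archLaw_le_one (12 * x - Real.log u)) (h0 u)
        rwa [mul_one] at this
      · have h3 : 0 < ν v := lt_of_le_of_ne (h0 v) (Ne.symm hv)
        have := mul_lt_mul_of_pos_left (archLaw_lt_one (12 * x - Real.log v)) h3
        rwa [mul_one] at this
    rwa [h1.tsum_eq] at h2
  · have h2 : Tendsto (fun x : ℝ => ∑' v : ℚ, ν v * archLaw (12 * x - Real.log v)) atBot
        (𝓝 (∑' _ : ℚ, (0 : ℝ))) := by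
      refine tendsto_tsum_of_dominated_convergence (bound := ν) h1.summable (fun v => ?_) ?_
      · refine tendsto_const_nhds.congr' ?_
        filter_upwards [eventually_lt_atBot ((ar 1 + Real.log v) / 12)] with x hx
        rw [archLaw_zero (by linarith), mul_zero]
      · filter_upwards with x v
        rw [Real.norm_of_nonneg (mul_nonneg (h0 v) (archLaw_nonneg _))]
        have := mul_le_mul_of_nonneg_left (archLaw_le_one (12 * x - Real.log v)) (h0 v)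
        rwa [mul_one] at this
    rw [tsum_zero] at h2
    exact h2
  · have h2 : Tendsto (fun x : ℝ => ∑' v : ℚ, ν v * archLaw (12 * x - Real.log v)) atTop
        (𝓝 (∑' v : ℚ, ν v)) := by
      refine tendsto_tsum_of_dominated_convergence (bound := ν) h1.summable (fun v => ?_) ?_
      · have h3 : Tendsto (fun x : ℝ => 12 * x - Real.log v) atTop atTop :=
          tendsto_atTop_add_const_right _ _ (tendsto_id.const_mul_atTop (by norm_num))
        have h4 := (archLaw_top.comp h3).const_mul (ν v)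
        rwa [mul_one] at h4
      · filter_upwards with x v
        rw [Real.norm_of_nonneg (mul_nonneg (h0 v) (archLaw_nonneg _))]
        have := mul_le_mul_of_nonneg_left (archLaw_le_one (12 * x - Real.log v)) (h0 v)
        rwa [mul_one] at this
    rw [h1.tsum_eq] at h2
    exact h2

end Pool.Agent.R465.FH
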