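import Pool.Agent.R465.FH.Mi
import Pool.Agent.Y679.Jl.Ph

set_option autoImplicit false

/-!
# The sum over the quotients and the classes
-/

namespace Pool.Agent.R465.FH

open Finset Filter Topology Pool.Agent.TH498.AR Pool.Agent.H925R.Szpiro Pool.Agent.Y679.Par
  Pool.Agent.Y679.Cur Pool.Agent.Y679.Jl
open Pool.Agent.Y679.Fh (minDisc disc_Eq c4_Eq c6_Eq minDisc_le)

/-- the models with `H ≤ T(w, c) D` -/
def Mg (lam c : ℤ × ℤ → ℕ) (T : ℕ → ℕ → ℝ) (N : ℝ) : Set (ℤ × ℤ) :=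
  {q | q ∈ Md lam N ∧ ∃ w : ℕ, D q.1 q.2 = ((w * condS q.1 q.2 : ℕ) : ℤ) ^ 2 ∧
    ((Hh q : ℤ) : ℝ) ≤ T w (c q) * ((D q.1 q.2 : ℤ) : ℝ)}

theorem D_pos' {q : ℤ × ℤ} (hmin : IsMin q.1 q.2) {w : ℕ}
    (hw : D q.1 q.2 = ((w * condS q.1 q.2 : ℕ) : ℤ) ^ 2) : (0 : ℝ) < ((D q.1 q.2 : ℤ) : ℝ) := by
  have h1 : 0 ≤ D q.1 q.2 := by rw [hw]; positivity
  have h2 := hmin.1
  exact_mod_cast lt_of_le_of_ne h1 (Ne.symm h2)

theorem w_pos {q : ℤ × ℤ} (hmin : IsMin q.1 q.2) {w : ℕ}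
    (hw : D q.1 q.2 = ((w * condS q.1 q.2 : ℕ) : ℤ) ^ 2) : 1 ≤ w := by
  rw [Nat.one_le_iff_ne_zero]
  rintro rfl
  exact hmin.1 (by rw [hw]; simp)

theorem Mg_split {lam c : ℤ × ℤ → ℕ} (hl : Pool.Agent.Y679.Par.Fac lam) {B : ℕ}
    (hB : ∀ q : ℤ × ℤ, IsMin q.1 q.2 → FullS q.1 q.2 → 1 ≤ c q ∧ c q ≤ B) {T : ℕ → ℕ → ℝ}
    {W : ℕ} (hW : ∀ w, W < w → ∀ m ∈ Icc 1 B, T w m < 1) {N : ℝ} (hN : 1 ≤ N) :
    ((Mg lam c T N).ncard : ℝ) =
      ∑ w ∈ Icc 1 W, ∑ m ∈ Icc 1 B, ((Mt lam c w m (T w m) N).ncard : ℝ) := by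
  classical
  have hfin : (Md lam N).Finite := Md_fin (fun q a b => (hl.1 q a b).1) hN
  have hfin' : ∀ (x : ℕ × ℕ), (Mt lam c x.1 x.2 (T x.1 x.2) N).Finite :=
    fun x => hfin.subset fun q hq => hq.1.1
  have hset : Mg lam c T N = (((Icc 1 W ×ˢ Icc 1 B).biUnion (fun x => (hfin' x).toFinset) :
      Finset (ℤ × ℤ)) : Set (ℤ × ℤ)) := by
    ext q
    rw [mem_coe, mem_biUnion]
    constructor
    · rintro ⟨h1, w, hD, h2⟩
      obtain ⟨m1, m2⟩ := hB q h1.1 h1.2.1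
      have hmm : c q ∈ Icc 1 B := mem_Icc.2 ⟨m1, m2⟩
      refine ⟨(w, c q), mem_product.2 ⟨mem_Icc.2 ⟨w_pos h1.1 hD, ?_⟩, hmm⟩, ?_⟩
      · by_contra hcon
        push Not at hcon
        have h3 := hW w hcon (c q) hmm
        have h4 : ((D q.1 q.2 : ℤ) : ℝ) ≤ ((Hh q : ℤ) : ℝ) := by exact_mod_cast D_le_H q
        have h5 := D_pos' h1.1 hD
        have h6 : T w (c q) * ((D q.1 q.2 : ℤ) : ℝ) < 1 * ((D q.1 q.2 : ℤ) : ℝ) :=
          mul_lt_mul_of_pos_right h3 h5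
        linarith
      · rw [Set.Finite.mem_toFinset]
        exact ⟨⟨h1, hD⟩, rfl, h2⟩
    · rintro ⟨x, hx, hq⟩
      rw [Set.Finite.mem_toFinset] at hq
      obtain ⟨h1, h2, h3⟩ := hq
      exact ⟨h1.1, x.1, h1.2, by rw [h2]; exact h3⟩
  rw [hset, Set.ncard_coe_finset, card_biUnion]
  · rw [sum_product]
    push_cast
    refine sum_congr rfl fun w _ => sum_congr rfl fun m _ => ?_
    rw [Set.ncard_eq_toFinset_card _ (hfin' (w, m))]
  · intro x _ y _ hxy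
    rw [Function.onFun, disjoint_left]
    intro q hq hq'
    rw [Set.Finite.mem_toFinset] at hq hq'
    obtain ⟨h1, h2, -⟩ := hq
    obtain ⟨h1', h2', -⟩ := hq'
    apply hxy
    refine Prod.ext ?_ (h2.symm.trans h2')
    have h3 := h1.2.symm.trans h1'.2
    have hc := condS_pos q.1 q.2
    have h4 : (x.1 * condS q.1 q.2) ^ 2 = (y.1 * condS q.1 q.2) ^ 2 := by exact_mod_cast h3
    have h5 := Nat.pow_left_injective (by norm_num : 2 ≠ 0) h4
    exact Nat.eq_of_mul_eq_mul_right hc h5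

/-- the clamped components of a class -/
def mOf (k : ℕ) : ℕ := max (Nat.unpair k).1 1

/-- the second component -/
def fOf (k : ℕ) : ℕ := min (max (Nat.unpair k).2 1) 62208

/-- the value of the arithmetic part -/
def val (w k : ℕ) : ℚ := 16 * (mOf k : ℚ) ^ 12 * (w : ℚ) ^ 2 / (6 ^ 12 * (fOf k : ℚ) ^ 2)

/-- the constant in the lower bound -/
def cz : ℚ := 16 / (6 ^ 12 * 62208 ^ 2)

lemma cz_pos : 0 < cz := by unfold cz; norm_num

lemma val_ge {w k : ℕ} (hw : 1 ≤ w) : cz * w ≤ val w k := by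
  have h1 : (1 : ℚ) ≤ mOf k := by
    unfold mOf
    exact_mod_cast le_max_right _ _
  have h2 : (fOf k : ℚ) ≤ 62208 := by
    unfold fOf
    exact_mod_cast min_le_right _ _
  have h3 : (1 : ℚ) ≤ fOf k := by
    have : 1 ≤ fOf k := by
      unfold fOf
      exact le_min (le_max_right _ _) (by norm_num)
    exact_mod_cast this
  have hw' : (1 : ℚ) ≤ w := by exact_mod_cast hw
  have h4 : (1 : ℚ) ≤ (mOf k : ℚ) ^ 12 := one_le_pow₀ h1
  have h5 : (w : ℚ) ≤ (w : ℚ) ^ 2 := by nlinarith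
  have h6 : (fOf k : ℚ) ^ 2 ≤ 62208 ^ 2 := pow_le_pow_left₀ (by linarith) h2 2
  have h7 : (w : ℚ) ≤ (mOf k : ℚ) ^ 12 * (w : ℚ) ^ 2 := by nlinarith
  unfold val cz
  rw [div_mul_eq_mul_div, div_le_div_iff₀ (by positivity) (by positivity)]
  calc 16 * (w : ℚ) * (6 ^ 12 * (fOf k : ℚ) ^ 2)
      ≤ 16 * ((mOf k : ℚ) ^ 12 * (w : ℚ) ^ 2) * (6 ^ 12 * 62208 ^ 2) := by
        refine mul_le_mul (by linarith) ?_ (by positivity) (by positivity)
        exact mul_le_mul_of_nonneg_left h6 (by positivity)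
    _ = _ := by ring

/-- the class -/
noncomputable def cl (lam : ℤ × ℤ → ℕ) (q : ℤ × ℤ) : ℕ := Nat.pair (mc q) (lam q)

/-- the arithmetic part: the minimal discriminant over the square of the conductor -/
noncomputable def ratio (lam : ℤ × ℤ → ℕ) (q : ℤ × ℤ) : ℚ :=
  (minDisc (EE q) : ℚ) / ((lam q * condS q.1 q.2 : ℕ) : ℚ) ^ 2

lemma ratio_eq {lam : ℤ × ℤ → ℕ} (hl : Pool.Agent.Y679.Par.Fac lam) {q : ℤ × ℤ}
    (hmin : IsMin q.1 q.2) (hf : FullS q.1 q.2) {w : ℕ}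
    (hw : D q.1 q.2 = ((w * condS q.1 q.2 : ℕ) : ℤ) ^ 2) : ratio lam q = val w (cl lam q) := by
  obtain ⟨h1, h2, h3, -⟩ := mc_spec hmin
  obtain ⟨h4, h5⟩ := hl.1 q hmin hf
  have e1 : mOf (cl lam q) = mc q := by
    unfold mOf cl
    rw [Nat.unpair_pair]
    exact max_eq_left h1
  have e2 : fOf (cl lam q) = lam q := by
    unfold fOf cl
    rw [Nat.unpair_pair]
    simp only
    rw [max_eq_left h4, min_eq_left h5]
  have hc : (condS q.1 q.2 : ℚ) ≠ 0 := by exact_mod_cast (condS_pos q.1 q.2).ne'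
  have hl0 : (lam q : ℚ) ≠ 0 := by
    have : lam q ≠ 0 := by omega
    exact_mod_cast this
  have h6 : ((D q.1 q.2).natAbs : ℚ) = ((w : ℚ) * condS q.1 q.2) ^ 2 := by
    have : (D q.1 q.2).natAbs = (w * condS q.1 q.2) ^ 2 := by
      rw [hw, Int.natAbs_pow, Int.natAbs_natCast]
    rw [this]
    push_cast
    ring
  have h7 : (6 : ℚ) ^ 12 * minDisc (EE q) = 16 * (mc q : ℚ) ^ 12 * ((w : ℚ) * condS q.1 q.2) ^ 2 := by
    rw [← h6]
    exact_mod_cast h3
  unfold ratio val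
  rw [e1, e2]
  have h8 : (minDisc (EE q) : ℚ) = 16 * (mc q : ℚ) ^ 12 * ((w : ℚ) * condS q.1 q.2) ^ 2 / 6 ^ 12 := by
    rw [← h7]
    field_simp
  rw [h8]
  push_cast
  field_simp

theorem Fl_pos : ∃ t : ℝ, 0 < Fl t := by
  obtain ⟨t, ht⟩ := (Fl_tendsto.eventually (lt_mem_nhds (show (0 : ℝ) < 1 by norm_num))).exists
  exact ⟨t, ht⟩

/-- **The sum law.** -/
theorem gen {lam : ℤ × ℤ → ℕ} (hl : Pool.Agent.Y679.Par.Fac lam) :
    ∃ (A : ℝ) (ν : ℚ → ℝ), 0 < A ∧ (∀ v, 0 ≤ ν v) ∧ HasSum ν 1 ∧ (∀ v, ν v ≠ 0 → 0 < v) ∧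
      Tendsto (fun N : ℝ => ((Md lam N).ncard : ℝ) / N ^ ((2 : ℝ) / 3)) atTop (𝓝 A) ∧
      ∀ (g : ℚ → ℝ) (v0 : ℚ), (∀ v, v0 < v → g v < 1) →
        Tendsto (fun N : ℝ => (({q | q ∈ Md lam N ∧ ((Hh q : ℤ) : ℝ) ≤
          g (ratio lam q) * ((D q.1 q.2 : ℤ) : ℝ)} : Set (ℤ × ℤ)).ncard : ℝ) / N ^ ((2 : ℝ) / 3))
          atTop (𝓝 (A * ∑' v, ν v * Fl (g v))) := by
  classical
  have hcl : Lct (cl lam) := Lct_pair mc_Lct hl.2
  set B : ℕ := (62208 + 1) ^ 2 with hBdef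
  have hB : ∀ q : ℤ × ℤ, IsMin q.1 q.2 → FullS q.1 q.2 → 1 ≤ cl lam q ∧ cl lam q ≤ B := by
    intro q h1 h2
    obtain ⟨a1, a2, -⟩ := mc_spec h1
    obtain ⟨b1, b2⟩ := hl.1 q h1 h2
    refine ⟨a1.trans (Nat.left_le_pair _ _), ?_⟩
    have h3 := Nat.pair_lt_max_add_one_sq (mc q) (lam q)
    have h4 : (max (mc q) (lam q) + 1) ^ 2 ≤ B :=
      Nat.pow_le_pow_left (by have := max_le (show mc q ≤ 62208 by omega) b2; omega) 2
    exact (h3.trans_le h4).le
  obtain ⟨A, α, hA, hα, hsum, hMd, hMt, -⟩ := joint hl hcl hB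
  obtain ⟨t0, ht0⟩ := Fl_pos
  have hα0 : ∀ k, α 0 k = 0 := by
    intro k
    have h1 := hMt 0 k t0
    have h2 : ∀ N, Mt lam (cl lam) 0 k t0 N = ∅ := by
      intro N
      rw [Set.eq_empty_iff_forall_notMem]
      rintro q ⟨⟨hq, hD⟩, -⟩
      exact absurd (w_pos hq.1 hD) (by norm_num)
    simp only [h2, Set.ncard_empty, Nat.cast_zero, zero_div] at h1
    have h3 := tendsto_nhds_unique h1 tendsto_const_nhds
    exact (mul_eq_zero.1 h3).resolve_right ht0.ne'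
  -- the mass function on the pairs
  set β : ℕ × ℕ → ℝ := fun i => if i.2 ∈ Icc 1 B then α i.1 i.2 / A else 0 with hβ
  have hβ0 : ∀ i, 0 ≤ β i := by
    intro i
    rw [hβ]
    simp only
    split_ifs
    · exact div_nonneg (hα _ _) hA.le
    · exact le_rfl
  have hfib : ∀ w, HasSum (fun k => β (w, k)) ((∑ m ∈ Icc 1 B, α w m) / A) := by
    intro w
    have h1 : HasSum (fun k => β (w, k)) (∑ k ∈ Icc 1 B, β (w, k)) :=
      hasSum_sum_of_ne_finset_zero fun k hk => by simp only [hβ, if_neg hk]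
    have h2 : ∑ k ∈ Icc 1 B, β (w, k) = (∑ m ∈ Icc 1 B, α w m) / A := by
      rw [sum_div]
      refine sum_congr rfl fun k hk => ?_
      simp only [hβ, if_pos hk]
    rwa [h2] at h1
  have hsumA : HasSum (fun w => (∑ m ∈ Icc 1 B, α w m) / A) 1 := by
    have := hsum.div_const A
    rwa [div_self hA.ne'] at this
  have hβs : Summable β := by
    rw [summable_prod_of_nonneg (fun i => hβ0 i)]
    refine ⟨fun w => (hfib w).summable, ?_⟩
    have : (fun w => ∑' k, β (w, k)) = fun w => (∑ m ∈ Icc 1 B, α w m) / A :=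
      funext fun w => (hfib w).tsum_eq
    rw [this]
    exact hsumA.summable
  have hβ1 : HasSum β 1 := by
    have h1 := hβs.hasSum
    rw [hβs.tsum_prod' fun w => (hfib w).summable] at h1
    have : (fun w => ∑' k, β (w, k)) = fun w => (∑ m ∈ Icc 1 B, α w m) / A :=
      funext fun w => (hfib w).tsum_eq
    rw [this, hsumA.tsum_eq] at h1
    exact h1
  set vl : ℕ × ℕ → ℚ := fun i => val i.1 i.2 with hvl
  set ν : ℚ → ℝ := fun v => ∑' i : (vl ⁻¹' {v} : Set (ℕ × ℕ)), β i with hν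
  have hν1 : HasSum ν 1 := hβ1.tsum_fiberwise vl
  refine ⟨A, ν, hA, fun v => tsum_nonneg fun i => hβ0 _, hν1, fun v hv => ?_, hMd,
    fun g v0 hg => ?_⟩
  · by_contra hcon
    apply hv
    have h1 : ∀ i : (vl ⁻¹' {v} : Set (ℕ × ℕ)), β i = 0 := by
      rintro ⟨⟨w, k⟩, hi⟩
      have hi' : val w k = v := hi
      rcases Nat.eq_zero_or_pos w with rfl | hw
      · simp only [hβ, hα0, zero_div, ite_self]
      · exfalso
        have h2 := val_ge (k := k) hw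
        have h3 : (1 : ℚ) ≤ w := by exact_mod_cast hw
        have h4 := cz_pos
        have : 0 < v := by
          rw [← hi']
          refine lt_of_lt_of_le ?_ h2
          positivity
        exact hcon this
    rw [hν]
    simp only [h1, tsum_zero]
  · -- the cut-off
    obtain ⟨W, hW⟩ := exists_nat_gt (v0 / cz)
    have hW' : ∀ w, W < w → ∀ m ∈ Icc 1 B, g (val w m) < 1 := by
      intro w hw m _
      apply hg
      have h1 := val_ge (k := m) (show 1 ≤ w by omega)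
      refine lt_of_lt_of_le ?_ h1
      rw [div_lt_iff₀ cz_pos] at hW
      have h2 : (W : ℚ) < w := by exact_mod_cast hw
      have h3 := cz_pos
      nlinarith
    have hset : ∀ N, ({q | q ∈ Md lam N ∧ ((Hh q : ℤ) : ℝ) ≤
        g (ratio lam q) * ((D q.1 q.2 : ℤ) : ℝ)} : Set (ℤ × ℤ)) =
        Mg lam (cl lam) (fun w k => g (val w k)) N := by
      intro N
      ext q
      constructor
      · rintro ⟨h1, h2⟩
        obtain ⟨w, -, hw⟩ := quot h1.1 h1.2.1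
        refine ⟨h1, w, hw, ?_⟩
        rw [ratio_eq hl h1.1 h1.2.1 hw] at h2
        exact h2
      · rintro ⟨h1, w, hw, h2⟩
        refine ⟨h1, ?_⟩
        rw [ratio_eq hl h1.1 h1.2.1 hw]
        exact h2
    have hlim : Tendsto (fun N : ℝ => ∑ w ∈ Icc 1 W, ∑ m ∈ Icc 1 B,
        ((Mt lam (cl lam) w m (g (val w m)) N).ncard : ℝ) / N ^ ((2 : ℝ) / 3)) atTop
        (𝓝 (∑ w ∈ Icc 1 W, ∑ m ∈ Icc 1 B, α w m * Fl (g (val w m)))) :=
      tendsto_finsetSum _ fun w _ => tendsto_finsetSum _ fun m _ => hMt w m _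
    have hval : ∑ w ∈ Icc 1 W, ∑ m ∈ Icc 1 B, α w m * Fl (g (val w m)) =
        A * ∑' v, ν v * Fl (g v) := by
      have h1 : HasSum (fun i : ℕ × ℕ => β i * Fl (g (vl i)))
          (∑ i ∈ Icc 1 W ×ˢ Icc 1 B, β i * Fl (g (vl i))) := by
        refine hasSum_sum_of_ne_finset_zero fun i hi => ?_
        by_cases h2 : i.2 ∈ Icc 1 B
        · rcases Nat.eq_zero_or_pos i.1 with h3 | h3
          · have : β i = 0 := by
              simp only [hβ, h3, hα0, zero_div, ite_self]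
            rw [this, zero_mul]
          · have h4 : W < i.1 := by
              by_contra hcon
              exact hi (mem_product.2 ⟨mem_Icc.2 ⟨h3, not_lt.1 hcon⟩, h2⟩)
            rw [Fl_small (hW' i.1 h4 i.2 h2), mul_zero]
        · have : β i = 0 := by simp only [hβ, if_neg h2]
          rw [this, zero_mul]
      have h2 := h1.tsum_fiberwise vl
      have h3 : (fun v => ∑' i : (vl ⁻¹' {v} : Set (ℕ × ℕ)), β i * Fl (g (vl i))) =
          fun v => ν v * Fl (g v) := by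
        funext v
        rw [hν]
        simp only
        rw [← tsum_mul_right]
        refine tsum_congr fun i => ?_
        rw [show vl i = v from i.2]
      rw [h3] at h2
      rw [h2.tsum_eq, sum_product, mul_sum]
      refine sum_congr rfl fun w _ => ?_
      rw [mul_sum]
      refine sum_congr rfl fun m hm => ?_
      simp only [hβ, hvl, if_pos hm]
      field_simp
    rw [← hval]
    refine hlim.congr' ?_
    filter_upwards [eventually_ge_atTop 1] with N hN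
    rw [hset, Mg_split hl hB hW' hN, sum_div]
    refine sum_congr rfl fun w _ => ?_
    rw [sum_div]

end Pool.Agent.R465.FH
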