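import Pool.Agent.Y679.Fh.Bd
import Pool.Agent.R465.FH.Ax2

set_option autoImplicit false

/-!
# The class of the minimal discriminant
-/

namespace Pool.Agent.R465.FH

open Pool.Agent.H925R.Szpiro
open Pool.Agent.Y679.Fh (minDisc disc_Eq c4_Eq c6_Eq minDisc_le)

/-- the curve -/
abbrev EE (q : ℤ × ℤ) : WeierstrassCurve ℚ := Pool.Agent.Y679.Fh.Eq q

/-- a scaling of a minimal model with integral coefficients is integral -/
lemma scale_int {a b A B : ℤ} (hmin : IsMin a b) {v : ℚ} (h4 : (A : ℚ) = v ^ 4 * a)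
    (h6 : (B : ℚ) = v ^ 6 * b) : ∃ m : ℤ, v = m := by
  have hn : (v.den : ℤ) ≠ 0 := by exact_mod_cast v.den_nz
  have hnq : (v.den : ℚ) ≠ 0 := by exact_mod_cast v.den_nz
  have hv : v * v.den = v.num := Rat.mul_den_eq_num v
  have hcop : IsCoprime (v.den : ℤ) v.num := by
    rw [Int.isCoprime_iff_gcd_eq_one]
    have := v.reduced
    rw [Int.gcd_comm]
    simpa [Int.gcd] using this
  have e4 : A * (v.den : ℤ) ^ 4 = v.num ^ 4 * a := by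
    have : (A : ℚ) * (v.den : ℚ) ^ 4 = (v.num : ℚ) ^ 4 * a := by
      rw [h4, ← hv]
      ring
    exact_mod_cast this
  have e6 : B * (v.den : ℤ) ^ 6 = v.num ^ 6 * b := by
    have : (B : ℚ) * (v.den : ℚ) ^ 6 = (v.num : ℚ) ^ 6 * b := by
      rw [h6, ← hv]
      ring
    exact_mod_cast this
  obtain ⟨a', ha'⟩ : (v.den : ℤ) ^ 4 ∣ a :=
    (hcop.pow : IsCoprime ((v.den : ℤ) ^ 4) (v.num ^ 4)).dvd_of_dvd_mul_left ⟨A, by rw [← e4]; ring⟩
  obtain ⟨b', hb'⟩ : (v.den : ℤ) ^ 6 ∣ b :=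
    (hcop.pow : IsCoprime ((v.den : ℤ) ^ 6) (v.num ^ 6)).dvd_of_dvd_mul_left ⟨B, by rw [← e6]; ring⟩
  have h1 := hmin.2 ((v.den : ℚ)⁻¹) a' b' (inv_ne_zero hnq) (by
    rw [ha']
    push_cast
    field_simp) (by
    rw [hb']
    push_cast
    field_simp)
  have h2 : D a b = (v.den : ℤ) ^ 12 * D a' b' := by
    rw [ha', hb']
    unfold D
    ring
  have h3 : 0 < |D a' b'| := by
    rw [abs_pos]
    intro h
    apply hmin.1
    rw [h2, h, mul_zero]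
  rw [h2, abs_mul, abs_pow] at h1
  have h5 : |(v.den : ℤ)| ^ 12 ≤ 1 := by
    by_contra hcon
    push Not at hcon
    nlinarith
  have h7 : v.den = 1 := by
    rw [Nat.abs_cast] at h5
    by_contra hcon
    have h8 : 2 ≤ v.den := by
      have := v.den_pos
      omega
    have h9 : (2 : ℤ) ^ 12 ≤ (v.den : ℤ) ^ 12 := pow_le_pow_left₀ (by norm_num) (by exact_mod_cast h8) _
    norm_num at h9
    linarith
  exact ⟨v.num, by rw [h7] at hv; simpa using hv⟩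

/-- an integral model with scaling `6 / m` -/
def Mo (q : ℤ × ℤ) (m : ℤ) (V : WeierstrassCurve ℤ) : Prop :=
  ∃ C : WeierstrassCurve.VariableChange ℚ, C • EE q = V.map (Int.castRingHom ℚ) ∧
    ((C.u⁻¹ : ℚˣ) : ℚ) = (m : ℚ) / 6

lemma Mo_disc {q : ℤ × ℤ} {m : ℤ} {V : WeierstrassCurve ℤ} (h : Mo q m V) :
    6 ^ 12 * V.Δ = 16 * m ^ 12 * D q.1 q.2 := by
  obtain ⟨C, hC, hu⟩ := h
  have h1 := congrArg WeierstrassCurve.Δ hC
  rw [WeierstrassCurve.variableChange_Δ, WeierstrassCurve.map_Δ, disc_Eq, hu] at h1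
  have h2 : ((V.Δ : ℤ) : ℚ) = (m / 6) ^ 12 * (16 * (D q.1 q.2 : ℤ)) := h1.symm
  have h3 : (6 : ℚ) ^ 12 * ((V.Δ : ℤ) : ℚ) = 16 * m ^ 12 * ((D q.1 q.2 : ℤ) : ℚ) := by
    rw [h2]
    ring
  exact_mod_cast h3

/-- transport of an integral model to a model nearby -/
lemma Mo_near {q q' : ℤ × ℤ} {m : ℤ} {V : WeierstrassCurve ℤ} (h : Mo q m V)
    (h1 : (6 : ℤ) ^ 6 ∣ q.1 - q'.1) (h2 : (6 : ℤ) ^ 6 ∣ q.2 - q'.2) :
    ∃ V' : WeierstrassCurve ℤ, Mo q' m V' := by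
  obtain ⟨C, hC, hu⟩ := h
  obtain ⟨x, hx⟩ := h1
  obtain ⟨y, hy⟩ := h2
  have e1 := congrArg WeierstrassCurve.a₁ hC
  have e2 := congrArg WeierstrassCurve.a₂ hC
  have e3 := congrArg WeierstrassCurve.a₃ hC
  have e4 := congrArg WeierstrassCurve.a₄ hC
  have e6 := congrArg WeierstrassCurve.a₆ hC
  rw [WeierstrassCurve.variableChange_a₁, hu, WeierstrassCurve.map_a₁] at e1
  rw [WeierstrassCurve.variableChange_a₂, hu, WeierstrassCurve.map_a₂] at e2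
  rw [WeierstrassCurve.variableChange_a₃, hu, WeierstrassCurve.map_a₃] at e3
  rw [WeierstrassCurve.variableChange_a₄, hu, WeierstrassCurve.map_a₄] at e4
  rw [WeierstrassCurve.variableChange_a₆, hu, WeierstrassCurve.map_a₆] at e6
  simp only [EE, Pool.Agent.Y679.Fh.Eq, eq_intCast] at e1 e2 e3 e4 e6
  refine ⟨⟨V.a₁, V.a₂, V.a₃, V.a₄ + m ^ 4 * 36 * x,
    V.a₆ + m ^ 6 * y + m ^ 4 * (4 * V.a₂ + V.a₁ ^ 2) * 3 * x⟩, C, ?_, hu⟩
  have hx' : (q.1 : ℚ) - q'.1 = 6 ^ 6 * x := by exact_mod_cast hx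
  have hy' : (q.2 : ℚ) - q'.2 = 6 ^ 6 * y := by exact_mod_cast hy
  apply WeierstrassCurve.ext
  · rw [WeierstrassCurve.variableChange_a₁, hu]
    simp only [EE, Pool.Agent.Y679.Fh.Eq, WeierstrassCurve.map, eq_intCast]
    exact e1
  · rw [WeierstrassCurve.variableChange_a₂, hu]
    simp only [EE, Pool.Agent.Y679.Fh.Eq, WeierstrassCurve.map, eq_intCast]
    exact e2
  · rw [WeierstrassCurve.variableChange_a₃, hu]
    simp only [EE, Pool.Agent.Y679.Fh.Eq, WeierstrassCurve.map, eq_intCast]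
    exact e3
  · rw [WeierstrassCurve.variableChange_a₄, hu]
    simp only [EE, Pool.Agent.Y679.Fh.Eq, WeierstrassCurve.map, eq_intCast]
    push_cast
    linear_combination e4 + (m / 6) ^ 4 * hx'
  · rw [WeierstrassCurve.variableChange_a₆, hu]
    simp only [EE, Pool.Agent.Y679.Fh.Eq, WeierstrassCurve.map, eq_intCast]
    push_cast
    have hs : (m : ℚ) * C.s = 3 * V.a₁ := by linear_combination 3 * e1
    have hr : (m : ℚ) ^ 2 * C.r = 12 * V.a₂ + 3 * (V.a₁ : ℚ) ^ 2 := by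
      linear_combination 12 * e2 + (1 / 3) * ((m : ℚ) * C.s + 3 * V.a₁) * hs
    linear_combination e6 + (m / 6) ^ 6 * hy' + (m / 6) ^ 6 * C.r * hx' + (m : ℚ) ^ 4 * x * hr

/-- the scaling of the minimal discriminant -/
lemma exists_mc {q : ℤ × ℤ} (hmin : IsMin q.1 q.2) : ∃ m : ℕ, 1 ≤ m ∧ m ≤ 6 ∧
    6 ^ 12 * minDisc (EE q) = 16 * m ^ 12 * (D q.1 q.2).natAbs ∧
    ∃ V : WeierstrassCurve ℤ, Mo q m V ∨ Mo q (-m) V := by
  have hne : {n : ℕ | ∃ (V : WeierstrassCurve ℤ) (C : WeierstrassCurve.VariableChange ℚ),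
      C • EE q = V.map (Int.castRingHom ℚ) ∧ n = V.Δ.natAbs}.Nonempty :=
    ⟨_, Pool.Agent.Y679.Fh.Ez q, 1, Pool.Agent.Y679.Fh.Ez_map q, rfl⟩
  obtain ⟨V, C, hC, hn⟩ := Nat.sInf_mem hne
  have hn' : minDisc (EE q) = V.Δ.natAbs := hn
  have hu : (C.u : ℚ) ≠ 0 := C.u.ne_zero
  have h4 : ((V.c₄ : ℤ) : ℚ) = ((C.u⁻¹ : ℚˣ) : ℚ) ^ 4 * (48 * q.1) := by
    have h1 := congrArg WeierstrassCurve.c₄ hC
    rw [WeierstrassCurve.variableChange_c₄, WeierstrassCurve.map_c₄, c4_Eq] at h1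
    exact h1.symm
  have h6 : ((V.c₆ : ℤ) : ℚ) = ((C.u⁻¹ : ℚˣ) : ℚ) ^ 6 * (864 * q.2) := by
    have h1 := congrArg WeierstrassCurve.c₆ hC
    rw [WeierstrassCurve.variableChange_c₆, WeierstrassCurve.map_c₆, c6_Eq] at h1
    exact h1.symm
  obtain ⟨m, hm⟩ := scale_int hmin (A := 27 * V.c₄) (B := 54 * V.c₆)
    (v := 6 * ((C.u⁻¹ : ℚˣ) : ℚ)) (by
      rw [Int.cast_mul, h4]
      push_cast
      ring) (by
      rw [Int.cast_mul, h6]
      push_cast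
      ring)
  have hmo : Mo q m V := ⟨C, hC, by rw [← hm]; ring⟩
  have hd := Mo_disc hmo
  have hD : (D q.1 q.2).natAbs ≠ 0 := Int.natAbs_ne_zero.2 hmin.1
  have hd2 : 6 ^ 12 * minDisc (EE q) = 16 * m.natAbs ^ 12 * (D q.1 q.2).natAbs := by
    rw [hn']
    have := congrArg Int.natAbs hd
    rw [Int.natAbs_mul, Int.natAbs_mul, Int.natAbs_mul, Int.natAbs_pow] at this
    simpa using this
  have hle := minDisc_le q
  refine ⟨m.natAbs, ?_, ?_, hd2, V, ?_⟩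
  · rw [Nat.one_le_iff_ne_zero, Int.natAbs_ne_zero]
    rintro rfl
    have : 6 * ((C.u⁻¹ : ℚˣ) : ℚ) = 0 := by rw [hm]; simp
    have h0 : ((C.u⁻¹ : ℚˣ) : ℚ) ≠ 0 := (C.u⁻¹).ne_zero
    exact h0 (by linarith)
  · by_contra hcon
    push Not at hcon
    have h1 : 7 ^ 12 ≤ m.natAbs ^ 12 := Nat.pow_le_pow_left hcon 12
    have h2 : 0 < (D q.1 q.2).natAbs := Nat.pos_of_ne_zero hD
    have h3 : 16 * m.natAbs ^ 12 * (D q.1 q.2).natAbs ≤ 6 ^ 12 * (16 * (D q.1 q.2).natAbs) := by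
      rw [← hd2]
      exact Nat.mul_le_mul_left _ hle
    have h4 : 16 * 7 ^ 12 * (D q.1 q.2).natAbs ≤ 16 * m.natAbs ^ 12 * (D q.1 q.2).natAbs :=
      Nat.mul_le_mul_right _ (Nat.mul_le_mul_left _ h1)
    omega
  · rcases Int.natAbs_eq m with h | h
    · left
      rw [← h]
      exact hmo
    · right
      rw [← h]
      exact hmo

lemma mc_le {q q' : ℤ × ℤ} (hmin' : IsMin q'.1 q'.2) {m m' : ℕ}
    (hV : ∃ V : WeierstrassCurve ℤ, Mo q m V ∨ Mo q (-m) V)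
    (h' : 6 ^ 12 * minDisc (EE q') = 16 * m' ^ 12 * (D q'.1 q'.2).natAbs)
    (h1 : (6 : ℤ) ^ 6 ∣ q.1 - q'.1) (h2 : (6 : ℤ) ^ 6 ∣ q.2 - q'.2) : m' ≤ m := by
  obtain ⟨V', hV'⟩ : ∃ V' : WeierstrassCurve ℤ, Mo q' m V' ∨ Mo q' (-m) V' := by
    obtain ⟨V, hV | hV⟩ := hV
    · obtain ⟨V', hV'⟩ := Mo_near hV h1 h2
      exact ⟨V', Or.inl hV'⟩
    · obtain ⟨V', hV'⟩ := Mo_near hV h1 h2
      exact ⟨V', Or.inr hV'⟩
  have hd : 6 ^ 12 * V'.Δ = 16 * (m : ℤ) ^ 12 * D q'.1 q'.2 := by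
    rcases hV' with h | h
    · exact Mo_disc h
    · have := Mo_disc h
      rw [this]
      ring
  have hd2 : 6 ^ 12 * V'.Δ.natAbs = 16 * m ^ 12 * (D q'.1 q'.2).natAbs := by
    have := congrArg Int.natAbs hd
    rw [Int.natAbs_mul, Int.natAbs_mul, Int.natAbs_mul, Int.natAbs_pow] at this
    simpa using this
  have hle : minDisc (EE q') ≤ V'.Δ.natAbs := by
    obtain ⟨C, hC, -⟩ : ∃ C : WeierstrassCurve.VariableChange ℚ,
        C • EE q' = V'.map (Int.castRingHom ℚ) ∧ True := by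
      rcases hV' with ⟨C, hC, -⟩ | ⟨C, hC, -⟩
      · exact ⟨C, hC, trivial⟩
      · exact ⟨C, hC, trivial⟩
    exact Nat.sInf_le ⟨V', C, hC, rfl⟩
  have h3 : 16 * m' ^ 12 * (D q'.1 q'.2).natAbs ≤ 16 * m ^ 12 * (D q'.1 q'.2).natAbs := by
    rw [← h', ← hd2]
    exact Nat.mul_le_mul_left _ hle
  have h4 : 0 < (D q'.1 q'.2).natAbs := Nat.pos_of_ne_zero (Int.natAbs_ne_zero.2 hmin'.1)
  have h5 := Nat.le_of_mul_le_mul_right h3 h4
  have h6 : m' ^ 12 ≤ m ^ 12 := by omega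
  exact (Nat.pow_le_pow_iff_left (by norm_num)).1 h6

/-- the class -/
noncomputable def mc (q : ℤ × ℤ) : ℕ := by
  classical
  exact if h : IsMin q.1 q.2 then (exists_mc h).choose else 1

lemma mc_spec {q : ℤ × ℤ} (hmin : IsMin q.1 q.2) : 1 ≤ mc q ∧ mc q ≤ 6 ∧
    6 ^ 12 * minDisc (EE q) = 16 * mc q ^ 12 * (D q.1 q.2).natAbs ∧
    ∃ V : WeierstrassCurve ℤ, Mo q (mc q) V ∨ Mo q (-(mc q : ℤ)) V := by
  have h : mc q = (exists_mc hmin).choose := by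
    unfold mc
    rw [dif_pos hmin]
  rw [h]
  exact (exists_mc hmin).choose_spec

lemma mc_Lct : Pool.Agent.Y679.Jl.Lct mc := by
  intro m
  refine ⟨6, fun q q' h1 _ h2 _ _ _ _ _ h3 h4 => ?_⟩
  obtain ⟨-, -, a1, a2⟩ := mc_spec h1
  obtain ⟨-, -, b1, b2⟩ := mc_spec h2
  refine le_antisymm (mc_le h1 b2 a1 ?_ ?_) (mc_le h2 a2 b1 h3 h4)
  · rw [← neg_sub, dvd_neg]
    exact h3
  · rw [← neg_sub, dvd_neg]
    exact h4

end Pool.Agent.R465.FH
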